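import Mathlib
import Pool.Agent.H.MP_cc5630_nt.A

set_option autoImplicit false

namespace Pool.Agent.Results.MP_cc5630_nt.LogOrder

open Finset Pool.Agent.H.MP_cc5630_nt

/-- covering set: distinct moduli greater than one admitting residues that cover all integers -/
def Covering (S : Finset ℕ) : Prop :=
  (∀ n ∈ S, 1 < n) ∧ ∃ a : ℕ → ℤ, ∀ z : ℤ, ∃ n ∈ S, z ≡ a n [ZMOD n]

/-- irreducible covering set: no proper subset is a covering set -/
def Irred (S : Finset ℕ) : Prop := Covering S ∧ ∀ T : Finset ℕ, T ⊂ S → ¬ Covering T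

theorem fin (N : ℕ) (S : Finset ℕ) (G : Good N S) (hN : N ∉ S) (h1 : 1 < N) :
    Irred (insert N S) := by
  classical
  refine ⟨⟨fun n hn => ?_, ?_⟩, fun T hT ⟨_, a, ha⟩ => ?_⟩
  · rcases mem_insert.1 hn with rfl | h
    · exact h1
    · exact (G.h1 n h).1
  · obtain ⟨a, x, h⟩ := G.h2
    refine ⟨fun n => if n = N then x else a n, fun z => ?_⟩
    by_cases hz : z ≡ x [ZMOD N]
    · exact ⟨N, mem_insert_self _ _, by simpa using hz⟩
    · obtain ⟨n, hn, h⟩ := h z hz
      have : n ≠ N := fun e => hN (e ▸ hn)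
      exact ⟨n, mem_insert_of_mem hn, by simpa [this] using h⟩
  · obtain ⟨m, hm, hmT⟩ := exists_of_ssubset hT
    rcases mem_insert.1 hm with rfl | h
    · obtain ⟨x, hx⟩ := G.h3 a
      obtain ⟨n, hn, e⟩ := ha x
      rcases mem_insert.1 (hT.1 hn) with rfl | h
      · exact hmT hn
      · exact hx n h e
    · obtain ⟨x, y, hxy, hx, hy⟩ := G.h4 a m h
      obtain ⟨n, hn, e⟩ := ha x
      obtain ⟨n', hn', e'⟩ := ha y
      rcases mem_insert.1 (hT.1 hn) with rfl | h
      · rcases mem_insert.1 (hT.1 hn') with rfl | h'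
        · exact hxy (e.trans e'.symm)
        · exact hy n' h' (fun e => hmT (e ▸ hn')) e'
      · exact hx n h (fun e => hmT (e ▸ hn)) e

theorem result : ∃ k₀ : ℕ, ∀ k : ℕ, k₀ ≤ k →
    (∃ S : Finset ℕ, Irred S ∧ S.card = k ∧ 1 / 8 * Real.log k ≤ ∑ n ∈ S, (1 : ℝ) / n) ∧
    (∀ S : Finset ℕ, Irred S → S.card = k → ∑ n ∈ S, (1 : ℝ) / n ≤ 2 * Real.log k) := by
  obtain ⟨k₀, hk₀⟩ := Filter.eventually_atTop.1
    ((Real.tendsto_log_atTop.comp tendsto_natCast_atTop_atTop).eventually_ge_atTop 12)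
  refine ⟨max k₀ 16, fun k hk => ⟨?_, fun S hS hc => ?_⟩⟩
  · have l : 12 ≤ Real.log k := hk₀ k (le_of_max_le_left hk)
    obtain ⟨N, S, G, hN, h1, c, w⟩ := lower k (le_of_max_le_right hk)
    refine ⟨insert N S, fin N S G hN h1, by rw [card_insert_of_notMem hN, c], ?_⟩
    rw [sum_insert hN]
    have : (0 : ℝ) ≤ 1 / N := by positivity
    rw [W] at w
    linarith
  · have l : 12 ≤ Real.log k := hk₀ k (le_of_max_le_left hk)
    have := le_of_max_le_right hk
    have u := upper S (fun n hn => by have := hS.1.1 n hn; omega) (by omega)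
    rw [W, hc] at u
    linarith

end Pool.Agent.Results.MP_cc5630_nt.LogOrder
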